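import Pool.Agent.Helper51.AJ.St
import Pool.Agent.Helper51.AJ.Basic

/-!
# Project AJ (MP_d63854_co), module ACY: triangle minors and cycles
-/

set_option autoImplicit false

namespace Pool.Agent.Helper29.AJ

open Pool.Agent.Helper51.AJ

private theorem ac1 {V : Type} (B : SimpleGraph V) (hB : B.IsAcyclic) :
    ¬ IsMinor (⊤ : SimpleGraph (Fin 3)) B := by
  rintro ⟨T, hcon, hdis, hadj⟩
  obtain ⟨a, ha, b, hb, hab⟩ := hadj 0 1 (by simp)
  obtain ⟨a', ha', c, hc, hac⟩ := hadj 0 2 (by simp)
  obtain ⟨b', hb', c', hc', hbc⟩ := hadj 1 2 (by simp)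
  have hbr := SimpleGraph.isAcyclic_iff_forall_adj_isBridge.1 hB hab
  rw [SimpleGraph.isBridge_iff] at hbr
  have h01 : ∀ z, z ∈ T 0 → z ∈ T 1 → False := fun z h h' =>
    Set.disjoint_left.1 (hdis 0 1 (by decide)) h h'
  have h02 : ∀ z, z ∈ T 0 → z ∈ T 2 → False := fun z h h' =>
    Set.disjoint_left.1 (hdis 0 2 (by decide)) h h'
  have h12 : ∀ z, z ∈ T 1 → z ∈ T 2 → False := fun z h h' =>
    Set.disjoint_left.1 (hdis 1 2 (by decide)) h h'
  -- edges which are not the edge `a b`
  have hedge : ∀ x y, B.Adj x y → ¬ (x = a ∧ y = b) → ¬ (x = b ∧ y = a) →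
      (B.deleteEdges {s(a, b)}).Adj x y := by
    intro x y hxy h1 h2
    rw [SimpleGraph.deleteEdges_adj]
    refine ⟨hxy, ?_⟩
    rw [Set.mem_singleton_iff, Sym2.eq_iff]
    rintro (h | h)
    · exact h1 h
    · exact h2 h
  -- inside the branch sets
  have hin : ∀ i : Fin 3, ∀ x ∈ T i, ∀ y ∈ T i, (B.deleteEdges {s(a, b)}).Reachable x y := by
    intro i x hx y hy
    have hnot : ¬ (a ∈ T i ∧ b ∈ T i) := by
      rintro ⟨h, h'⟩
      have hi : i = 0 := by
        by_contra hne
        exact Set.disjoint_left.1 (hdis i 0 hne) h ha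
      subst hi
      exact h01 b h' hb
    have hr := (hcon i).preconnected ⟨x, hx⟩ ⟨y, hy⟩
    let f : (B.induce (T i)) →g (B.deleteEdges {s(a, b)}) :=
      { toFun := fun z => z.1
        map_rel' := by
          intro z w hzw
          apply hedge
          · exact hzw
          · rintro ⟨h, h'⟩
            exact hnot ⟨h ▸ z.2, h' ▸ w.2⟩
          · rintro ⟨h, h'⟩
            exact hnot ⟨h' ▸ w.2, h ▸ z.2⟩ }
    exact hr.map f
  apply hbr
  have e1 : (B.deleteEdges {s(a, b)}).Reachable a' c := by
    apply SimpleGraph.Adj.reachable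
    apply hedge _ _ hac
    · rintro ⟨-, h⟩
      exact h12 b hb (h ▸ hc)
    · rintro ⟨-, h⟩
      exact h02 a ha (h ▸ hc)
  have e2 : (B.deleteEdges {s(a, b)}).Reachable b' c' := by
    apply SimpleGraph.Adj.reachable
    apply hedge _ _ hbc
    · rintro ⟨-, h⟩
      exact h12 b hb (h ▸ hc')
    · rintro ⟨-, h⟩
      exact h02 a ha (h ▸ hc')
  exact ((hin 0 a ha a' ha').trans e1).trans
    (((hin 2 c hc c' hc').trans e2.symm).trans (hin 1 b' hb' b hb))

private theorem ac2 (h : StCon) {V : Type} [Finite V] (B : SimpleGraph V) (hB : ¬ B.IsAcyclic) :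
    ∃ (x : V) (P Q : Set V), x ∉ P ∧ x ∉ Q ∧ Disjoint P Q ∧ Con B P ∧ Con B Q ∧
      Tch B {x} P ∧ Tch B {x} Q ∧ Tch B P Q := by
  unfold SimpleGraph.IsAcyclic at hB
  push Not at hB
  obtain ⟨x, c, hc⟩ := hB
  cases c with
  | nil => exact absurd rfl hc.ne_nil
  | @cons _ y _ hxy p =>
    rw [SimpleGraph.Walk.cons_isCycle_iff] at hc
    obtain ⟨hp, hne⟩ := hc
    have hq : p.reverse.IsPath := hp.reverse
    have hne' : s(x, y) ∉ p.reverse.edges := by
      rw [SimpleGraph.Walk.edges_reverse, List.mem_reverse]
      exact hne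
    generalize p.reverse = q at hq hne'
    cases q with
    | nil => exact absurd hxy (B.loopless.irrefl _)
    | @cons _ z _ hxz r =>
      rw [SimpleGraph.Walk.cons_isPath_iff] at hq
      obtain ⟨-, hxr⟩ := hq
      have hzy : z ≠ y := by
        rintro rfl
        apply hne'
        rw [SimpleGraph.Walk.edges_cons]
        exact List.mem_cons_self
      obtain ⟨-, -, h3⟩ := h V B {t | t ∈ r.support} r.connected_induce_support
      obtain ⟨P, Q, hPQ, hd, hzP, hyQ, hP, hQ, ht⟩ :=
        h3 z r.start_mem_support y r.end_mem_support hzy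
      refine ⟨x, P, Q, ?_, ?_, hd, hP, hQ, ⟨x, rfl, z, hzP, hxz⟩, ⟨x, rfl, y, hyQ, hxy⟩, ht⟩
      · intro hx
        apply hxr
        have : x ∈ P ∪ Q := Or.inl hx
        rw [hPQ] at this
        exact this
      · intro hx
        apply hxr
        have : x ∈ P ∪ Q := Or.inr hx
        rw [hPQ] at this
        exact this

/-- everything in a connected set is reachable -/
private theorem ac3 {V : Type} (B : SimpleGraph V) {x : V} {P : Set V} (hP : Con B P)
    (ht : Tch B {x} P) {c : V} (hc : c ∈ P) : B.Reachable x c := by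
  obtain ⟨x', hx', y, hy, hxy⟩ := ht
  have hx'' : x' = x := hx'
  subst hx''
  have hr := hP.preconnected ⟨y, hy⟩ ⟨c, hc⟩
  exact hxy.reachable.trans (hr.map (SimpleGraph.Embedding.induce P).toHom)

theorem hACY (h1 : StCon) : StAcy := by
  intro V _ B
  refine ⟨ac1 B, ?_, ?_⟩
  · intro hB
    obtain ⟨x, P, Q, hxP, hxQ, hd, hP, hQ, txP, txQ, tPQ⟩ := ac2 h1 B hB
    refine ⟨![{x}, P, Q], ?_, ?_, ?_⟩
    · intro w
      fin_cases w
      · exact con_singleton B x
      · exact hP
      · exact hQ
    · intro w w' hne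
      fin_cases w <;> fin_cases w'
      · exact absurd rfl hne
      · exact Set.disjoint_singleton_left.2 hxP
      · exact Set.disjoint_singleton_left.2 hxQ
      · exact Set.disjoint_singleton_right.2 hxP
      · exact absurd rfl hne
      · exact hd
      · exact Set.disjoint_singleton_right.2 hxQ
      · exact hd.symm
      · exact absurd rfl hne
    · intro w w' hww'
      fin_cases w <;> fin_cases w'
      · exact absurd rfl hww'
      · exact txP
      · exact txQ
      · exact tch_symm txP
      · exact absurd rfl hww'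
      · exact tPQ
      · exact tch_symm txQ
      · exact tch_symm tPQ
      · exact absurd rfl hww'
  · intro hB hcon
    obtain ⟨x, P, Q, hxP, hxQ, hd, hP, hQ, txP, txQ, tPQ⟩ := ac2 h1 B hB
    obtain ⟨c, hc⟩ : ∃ c, ¬ B.Reachable x c := by
      by_contra hcon2
      push Not at hcon2
      apply hcon
      have : Nonempty V := ⟨x⟩
      exact ⟨fun u v => (hcon2 u).symm.trans (hcon2 v)⟩
    have hcx : c ≠ x := by
      rintro rfl
      exact hc (SimpleGraph.Reachable.refl _)
    have hcP : c ∉ P := fun h => hc (ac3 B hP txP h)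
    have hcQ : c ∉ Q := fun h => hc (ac3 B hQ txQ h)
    refine ⟨Sum.elim ![{x}, P, Q] (fun _ => {c}), ?_, ?_, ?_⟩
    · rintro (w | w)
      · fin_cases w
        · exact con_singleton B x
        · exact hP
        · exact hQ
      · exact con_singleton B c
    · rintro (w | w) (w' | w') hne
      · fin_cases w <;> fin_cases w'
        · exact absurd rfl hne
        · exact Set.disjoint_singleton_left.2 hxP
        · exact Set.disjoint_singleton_left.2 hxQ
        · exact Set.disjoint_singleton_right.2 hxP
        · exact absurd rfl hne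
        · exact hd
        · exact Set.disjoint_singleton_right.2 hxQ
        · exact hd.symm
        · exact absurd rfl hne
      · fin_cases w
        · exact Set.disjoint_singleton.2 hcx.symm
        · exact Set.disjoint_singleton_right.2 hcP
        · exact Set.disjoint_singleton_right.2 hcQ
      · fin_cases w'
        · exact Set.disjoint_singleton.2 hcx
        · exact Set.disjoint_singleton_left.2 hcP
        · exact Set.disjoint_singleton_left.2 hcQ
      · exact absurd (congrArg Sum.inr (Subsingleton.elim w w')) hne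
    · rintro (w | w) (w' | w') hww'
      · have hww : w ≠ w' := hww'
        fin_cases w <;> fin_cases w'
        · exact absurd rfl hww
        · exact txP
        · exact txQ
        · exact tch_symm txP
        · exact absurd rfl hww
        · exact tPQ
        · exact tch_symm txQ
        · exact tch_symm tPQ
        · exact absurd rfl hww
      · exact absurd hww' (by simp)
      · exact absurd hww' (by simp)
      · exact absurd (Subsingleton.elim w w') hww'

end Pool.Agent.Helper29.AJ
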