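import Pool.Agent.Helper51.AJ.St
import Pool.Agent.Helper51.AJ.Basic

/-!
# Project AJ (MP_d63854_co), module THE: the theta minor
-/

set_option autoImplicit false

namespace Pool.Agent.Helper29.AJ

open Pool.Agent.Helper51.AJ

theorem hTHE (h1 : StSpl) : StThe := by
  intro V _ B u v W hN hs
  choose P Q hPQ hd hP hQ hT hu hv using fun i => (h1 V B u v W hN i (hs i)).1
  have hPW : ∀ i, P i ⊆ W i := fun i x hx => hPQ i ▸ Or.inl hx
  have hQW : ∀ i, Q i ⊆ W i := fun i x hx => hPQ i ▸ Or.inr hx
  have huv : Disjoint ({u} : Set V) {v} := Set.disjoint_singleton.2 hN.ne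
  have huP : ∀ i, Disjoint ({u} : Set V) (P i) := fun i =>
    Set.disjoint_singleton_left.2 fun h => hN.nu i (hPW i h)
  have huQ : ∀ i, Disjoint ({u} : Set V) (Q i) := fun i =>
    Set.disjoint_singleton_left.2 fun h => hN.nu i (hQW i h)
  have hvP : ∀ i, Disjoint ({v} : Set V) (P i) := fun i =>
    Set.disjoint_singleton_left.2 fun h => hN.nv i (hPW i h)
  have hvQ : ∀ i, Disjoint ({v} : Set V) (Q i) := fun i =>
    Set.disjoint_singleton_left.2 fun h => hN.nv i (hQW i h)
  have hPP : ∀ i j, i ≠ j → Disjoint (P i) (P j) := fun i j hij =>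
    (hN.dis i j hij).mono (hPW i) (hPW j)
  have hPQ' : ∀ i j, i ≠ j → Disjoint (P i) (Q j) := fun i j hij =>
    (hN.dis i j hij).mono (hPW i) (hQW j)
  have hQP : ∀ i j, i ≠ j → Disjoint (Q i) (P j) := fun i j hij =>
    (hN.dis i j hij).mono (hQW i) (hPW j)
  have hQQ : ∀ i j, i ≠ j → Disjoint (Q i) (Q j) := fun i j hij =>
    (hN.dis i j hij).mono (hQW i) (hQW j)
  refine isMinor_gr ![{u}, {v}, P 0, Q 0, P 1, Q 1, P 2, Q 2] ?_ ?_ ?_
  · intro i
    fin_cases i
    · exact con_singleton B u
    · exact con_singleton B v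
    · exact hP 0
    · exact hQ 0
    · exact hP 1
    · exact hQ 1
    · exact hP 2
    · exact hQ 2
  · have d01 : (0 : Fin 3) ≠ 1 := by decide
    have d02 : (0 : Fin 3) ≠ 2 := by decide
    have d12 : (1 : Fin 3) ≠ 2 := by decide
    intro i j hij
    fin_cases i <;> fin_cases j <;>
      first
      | (exfalso; revert hij; decide)
      | skip
    · exact huv
    · exact huP 0
    · exact huQ 0
    · exact huP 1
    · exact huQ 1
    · exact huP 2
    · exact huQ 2
    · exact hvP 0
    · exact hvQ 0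
    · exact hvP 1
    · exact hvQ 1
    · exact hvP 2
    · exact hvQ 2
    · exact hd 0
    · exact hPP 0 1 d01
    · exact hPQ' 0 1 d01
    · exact hPP 0 2 d02
    · exact hPQ' 0 2 d02
    · exact hQP 0 1 d01
    · exact hQQ 0 1 d01
    · exact hQP 0 2 d02
    · exact hQQ 0 2 d02
    · exact hd 1
    · exact hPP 1 2 d12
    · exact hPQ' 1 2 d12
    · exact hQP 1 2 d12
    · exact hQQ 1 2 d12
    · exact hd 2
  · intro p hp h1 h2
    simp only [List.mem_cons, List.not_mem_nil, or_false] at hp
    rcases hp with rfl | rfl | rfl | rfl | rfl | rfl | rfl | rfl | rfl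
    · exact hu 0
    · exact hT 0
    · exact tch_symm (hv 0)
    · exact hu 1
    · exact hT 1
    · exact tch_symm (hv 1)
    · exact hu 2
    · exact hT 2
    · exact tch_symm (hv 2)

end Pool.Agent.Helper29.AJ
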